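import Mathlib

/-!
# The `p`-metric mean dimension of a sofic group action does not depend on `p`

For every countable sofic group `Γ`, every sofic approximation `Σ`, every action of `Γ` by
homeomorphisms on a compact metrizable space `X` and every `1 ≤ p ≤ ∞`, the `p`-metric mean
dimension of the action equals its sofic metric mean dimension.

Idea. If `ρ` is a dynamically generating continuous pseudometric and `u` a dense sequence in `X`,
replace `ρ` by `ρ'(x, y) = ∑ 2 ^ (- n - 1) |ρ(x, u n) - ρ(y, u n)| ≤ ρ(x, y)`. It is again dynamically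
generating, does not increase the `p`-quantities, and its covering numbers grow tamely: the
logarithm of the number of cells of diameter `< ε` is `O(log(1 / ε) ^ 2)`. So one may change the maps
at a proportion `2 ε ^ τ` of the points at a negligible cost, which compares the `ℓ^p`-distance at the
scale `ε ^ (1 + τ)` with the sup distance at the scale `ε`.
-/

open Filter Topology
open scoped ENNReal

namespace Pool.Agent.Results.MP_9d0111_an.PEqualsInfinity

universe u v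

/-- `(σ i)` is a sofic approximation of the group `Γ` by the symmetric groups `Sym (d i)`. -/
structure IsSoficApproximation {Γ : Type u} [Group Γ] (d : ℕ → ℕ)
    (σ : ∀ i, Γ → Equiv.Perm (Fin (d i))) : Prop where
  tendsto_card : Tendsto d atTop atTop
  mul : ∀ s t : Γ, Tendsto
    (fun i => (Nat.card {j : Fin (d i) // σ i (s * t) j = σ i s (σ i t j)} : ℝ) / d i) atTop (𝓝 1)
  free : ∀ s : Γ, s ≠ 1 → Tendsto
    (fun i => (Nat.card {j : Fin (d i) // σ i s j = j} : ℝ) / d i) atTop (𝓝 0)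

/-- Continuous pseudometrics on a topological space. -/
structure IsContinuousPseudometric {X : Type v} [TopologicalSpace X] (ρ : X → X → ℝ) : Prop where
  self : ∀ x, ρ x x = 0
  symm : ∀ x y, ρ x y = ρ y x
  triangle : ∀ x y z, ρ x z ≤ ρ x y + ρ y z
  cont : Continuous fun q : X × X => ρ q.1 q.2

/-- `ρ` is dynamically generating for the action of `Γ`. -/
def IsDynamicallyGenerating (Γ : Type u) {X : Type v} [SMul Γ X] (ρ : X → X → ℝ) : Prop :=
  ∀ x y : X, x ≠ y → ∃ s : Γ, 0 < ρ (s • x) (s • y)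

/-- The pseudometrics `ρ_p` on the maps `{1, …, d} → X`: the `p`-th root of the mean of the `p`-th
powers, and the maximum for `p = ∞`. -/
noncomputable def lpDist {X : Type v} (p : ℝ≥0∞) (ρ : X → X → ℝ) {d : ℕ} (φ ψ : Fin d → X) : ℝ :=
  if p = ⊤ then ⨆ j, ρ (φ j) (ψ j)
  else ((∑ j, ρ (φ j) (ψ j) ^ p.toReal) / d) ^ (1 / p.toReal)

/-- `Map(ρ, F, δ, σ)`: the maps `φ` with `ρ_2(φ ∘ σ(s), s φ) ≤ δ` for all `s ∈ F`. -/
def mapSet {Γ : Type u} {X : Type v} [SMul Γ X] (ρ : X → X → ℝ) (F : Finset Γ) (δ : ℝ) {d : ℕ}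
    (σ : Γ → Equiv.Perm (Fin d)) : Set (Fin d → X) :=
  {φ | ∀ s ∈ F, lpDist 2 ρ (fun j => φ (σ s j)) (fun j => s • φ j) ≤ δ}

/-- `N_ε(S, θ)`: the largest cardinality of a subset of `S` whose distinct points have
`θ`-distance at least `ε`. -/
noncomputable def sepNum {Y : Type v} (ε : ℝ) (S : Set Y) (θ : Y → Y → ℝ) : ℕ∞ :=
  ⨆ A : {A : Set Y // A ⊆ S ∧ A.Pairwise fun a b => ε ≤ θ a b}, (A : Set Y).encard

/-- `mdim_{Σ,p}(ρ)`. -/
noncomputable def mdimOf {Γ : Type u} {X : Type v} [SMul Γ X] {d : ℕ → ℕ}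
    (σ : ∀ i, Γ → Equiv.Perm (Fin (d i))) (p : ℝ≥0∞) (ρ : X → X → ℝ) : EReal :=
  liminf (fun ε : ℝ => ⨅ F : Finset Γ, ⨅ δ : {δ : ℝ // 0 < δ},
    limsup (fun i => ENNReal.log ((sepNum ε (mapSet ρ F δ (σ i)) (lpDist p ρ) : ℕ∞) : ℝ≥0∞) /
      (((d i : ℝ) * Real.log (1 / ε) : ℝ) : EReal)) atTop) (𝓝[>] 0)

/-- The `p`-metric mean dimension `mdim_{Σ,M,p}(X, Γ)`; for `p = ∞` this is the sofic metric mean
dimension. -/
noncomputable def metricMeanDim {Γ : Type u} (X : Type v) [TopologicalSpace X] [SMul Γ X]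
    {d : ℕ → ℕ} (σ : ∀ i, Γ → Equiv.Perm (Fin (d i))) (p : ℝ≥0∞) : EReal :=
  ⨅ ρ : {ρ : X → X → ℝ // IsContinuousPseudometric ρ ∧ IsDynamicallyGenerating Γ ρ},
    mdimOf σ p (ρ : X → X → ℝ)

/-! ### Elementary properties of pseudometrics -/

section Basic

variable {X : Type v} [TopologicalSpace X] {ρ : X → X → ℝ}

theorem IsContinuousPseudometric.nonneg (h : IsContinuousPseudometric ρ) (x y : X) :
    0 ≤ ρ x y := by
  have h1 := h.triangle x y x
  rw [h.self, h.symm y x] at h1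
  linarith

theorem IsContinuousPseudometric.exists_bound [CompactSpace X] (h : IsContinuousPseudometric ρ) :
    ∃ C : ℝ, 1 ≤ C ∧ ∀ x y, ρ x y ≤ C := by
  obtain ⟨C, hC⟩ := (isCompact_range h.cont).bddAbove
  refine ⟨max C 1, le_max_right _ _, fun x y => le_trans (hC ⟨(x, y), rfl⟩) (le_max_left _ _)⟩

theorem abs_sub_le (h : IsContinuousPseudometric ρ) (x y z : X) :
    |ρ x z - ρ y z| ≤ ρ x y := by
  rw [abs_le]
  have h1 := h.triangle y x z
  have h2 := h.triangle x y z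
  rw [h.symm y x] at h1
  constructor <;> linarith

end Basic

/-! ### `lpDist` -/

theorem lpDist_top {X : Type v} (ρ : X → X → ℝ) {d : ℕ} (φ ψ : Fin d → X) :
    lpDist ⊤ ρ φ ψ = ⨆ j, ρ (φ j) (ψ j) := if_pos rfl

theorem lpDist_of_ne_top {X : Type v} {p : ℝ≥0∞} (hp : p ≠ ⊤) (ρ : X → X → ℝ) {d : ℕ}
    (φ ψ : Fin d → X) :
    lpDist p ρ φ ψ = ((∑ j, ρ (φ j) (ψ j) ^ p.toReal) / d) ^ (1 / p.toReal) := if_neg hp

theorem lpDist_mono {X : Type v} {p : ℝ≥0∞} {ρ ρ' : X → X → ℝ} (h0 : ∀ x y, 0 ≤ ρ' x y)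
    (hle : ∀ x y, ρ' x y ≤ ρ x y) {d : ℕ} (φ ψ : Fin d → X) :
    lpDist p ρ' φ ψ ≤ lpDist p ρ φ ψ := by
  by_cases hp : p = ⊤
  · subst hp
    rw [lpDist_top, lpDist_top]
    rcases isEmpty_or_nonempty (Fin d) with he | he
    · simp
    · exact ciSup_mono (Set.finite_range _).bddAbove fun j => hle _ _
  · rw [lpDist_of_ne_top hp, lpDist_of_ne_top hp]
    apply Real.rpow_le_rpow
    · exact div_nonneg (Finset.sum_nonneg fun j _ => Real.rpow_nonneg (h0 _ _) _) (Nat.cast_nonneg _)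
    · apply div_le_div_of_nonneg_right _ (Nat.cast_nonneg _)
      exact Finset.sum_le_sum fun j _ =>
        Real.rpow_le_rpow (h0 _ _) (hle _ _) ENNReal.toReal_nonneg
    · exact div_nonneg zero_le_one ENNReal.toReal_nonneg

theorem lpDist_le_top {X : Type v} {p : ℝ≥0∞} (hp : 1 ≤ p) {ρ : X → X → ℝ}
    (h0 : ∀ x y, 0 ≤ ρ x y) {d : ℕ} (φ ψ : Fin d → X) :
    lpDist p ρ φ ψ ≤ lpDist ⊤ ρ φ ψ := by
  by_cases hp' : p = ⊤
  · subst hp'; exact le_rfl
  have hq : 1 ≤ p.toReal := by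
    have := ENNReal.toReal_mono hp' hp
    simpa using this
  have hq0 : 0 < p.toReal := by linarith
  rw [lpDist_of_ne_top hp', lpDist_top]
  rcases Nat.eq_zero_or_pos d with hd | hd
  · subst hd
    simp [Real.zero_rpow (inv_ne_zero hq0.ne')]
  · have : Nonempty (Fin d) := ⟨⟨0, hd⟩⟩
    have hM : ∀ j, ρ (φ j) (ψ j) ≤ ⨆ j, ρ (φ j) (ψ j) := fun j =>
      le_ciSup (f := fun j => ρ (φ j) (ψ j)) (Set.finite_range _).bddAbove j
    set M := ⨆ j, ρ (φ j) (ψ j)
    have hM0 : 0 ≤ M := le_trans (h0 _ _) (hM ⟨0, hd⟩)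
    have hd' : (0 : ℝ) < d := by exact_mod_cast hd
    have h1 : (∑ j, ρ (φ j) (ψ j) ^ p.toReal) / d ≤ M ^ p.toReal := by
      rw [div_le_iff₀ hd']
      calc (∑ j, ρ (φ j) (ψ j) ^ p.toReal) ≤ ∑ _j : Fin d, M ^ p.toReal :=
            Finset.sum_le_sum fun j _ => Real.rpow_le_rpow (h0 _ _) (hM j) hq0.le
        _ = M ^ p.toReal * d := by simp [mul_comm]
    calc ((∑ j, ρ (φ j) (ψ j) ^ p.toReal) / d) ^ (1 / p.toReal)
        ≤ (M ^ p.toReal) ^ (1 / p.toReal) := by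
          apply Real.rpow_le_rpow _ h1 (by positivity)
          exact div_nonneg (Finset.sum_nonneg fun j _ => Real.rpow_nonneg (h0 _ _) _)
            (Nat.cast_nonneg _)
      _ = M := by
          rw [← Real.rpow_mul hM0, mul_one_div_cancel hq0.ne', Real.rpow_one]

theorem sepNum_mono {Y : Type v} {ε : ℝ} {S T : Set Y} {θ η : Y → Y → ℝ} (hST : S ⊆ T)
    (h : ∀ a b, θ a b ≤ η a b) : sepNum ε S θ ≤ sepNum ε T η := by
  unfold sepNum
  refine iSup_le fun A => ?_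
  refine le_iSup_of_le ⟨(A : Set Y), A.2.1.trans hST, ?_⟩ le_rfl
  exact A.2.2.mono' fun a b hab => le_trans hab (h a b)


/-! ### The tame pseudometric -/

/-- Tameness of the covering numbers: for every `ε > 0` there is a labelling of the points by
`K ε` labels such that points with the same label are at distance `< ε`, and
`ε ^ τ log K ε → 0` for all `τ > 0`. -/
def IsTame {X : Type v} (ρ : X → X → ℝ) : Prop :=
  ∃ K : ℝ → ℕ, (∀ ε, 1 ≤ K ε) ∧
    (∀ ε, 0 < ε → ∃ c : X → Fin (K ε), ∀ x y, c x = c y → ρ x y < ε) ∧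
    ∀ τ : ℝ, 0 < τ → Tendsto (fun ε : ℝ => ε ^ τ * Real.log (K ε)) (𝓝[>] 0) (𝓝 0)

section Tame

variable {X : Type v} [TopologicalSpace X]

/-- The modified pseudometric. -/
noncomputable def tameOf (ρ : X → X → ℝ) (u : ℕ → X) (x y : X) : ℝ :=
  ∑' n : ℕ, (1 / 2 : ℝ) ^ (n + 1) * |ρ x (u n) - ρ y (u n)|

theorem summable_half : Summable fun n : ℕ => (1 / 2 : ℝ) ^ (n + 1) := by
  have := (summable_geometric_two).mul_left (1 / 2 : ℝ)
  refine this.congr fun n => ?_
  rw [pow_succ]; ring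

theorem tsum_half : ∑' n : ℕ, (1 / 2 : ℝ) ^ (n + 1) = 1 := by
  have h : ∀ n : ℕ, (1 / 2 : ℝ) ^ (n + 1) = (1 / 2) * (1 / 2) ^ n := fun n => by
    rw [pow_succ]; ring
  simp_rw [h]
  rw [tsum_mul_left, tsum_geometric_two]
  norm_num

variable {ρ : X → X → ℝ} (hρ : IsContinuousPseudometric ρ) (u : ℕ → X)

include hρ

theorem tame_term_le (x y : X) (n : ℕ) :
    (1 / 2 : ℝ) ^ (n + 1) * |ρ x (u n) - ρ y (u n)| ≤ (1 / 2 : ℝ) ^ (n + 1) * ρ x y :=
  mul_le_mul_of_nonneg_left (abs_sub_le hρ x y (u n)) (by positivity)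

theorem tame_summable (x y : X) :
    Summable fun n : ℕ => (1 / 2 : ℝ) ^ (n + 1) * |ρ x (u n) - ρ y (u n)| :=
  Summable.of_nonneg_of_le (fun n => by positivity) (tame_term_le hρ u x y)
    (summable_half.mul_right _)

theorem tame_le (x y : X) : tameOf ρ u x y ≤ ρ x y := by
  calc tameOf ρ u x y ≤ ∑' n : ℕ, (1 / 2 : ℝ) ^ (n + 1) * ρ x y :=
        (tame_summable hρ u x y).tsum_le_tsum (tame_term_le hρ u x y) (summable_half.mul_right _)
    _ = ρ x y := by rw [tsum_mul_right, tsum_half, one_mul]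

theorem tame_pseudometric [CompactSpace X] : IsContinuousPseudometric (tameOf ρ u) := by
  obtain ⟨C, hC1, hC⟩ := hρ.exists_bound
  constructor
  · intro x; simp [tameOf]
  · intro x y
    unfold tameOf
    refine tsum_congr fun n => ?_
    rw [abs_sub_comm]
  · intro x y z
    unfold tameOf
    rw [← (tame_summable hρ u x y).tsum_add (tame_summable hρ u y z)]
    refine (tame_summable hρ u x z).tsum_le_tsum (fun n => ?_)
      ((tame_summable hρ u x y).add (tame_summable hρ u y z))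
    rw [← mul_add]
    apply mul_le_mul_of_nonneg_left _ (by positivity)
    calc |ρ x (u n) - ρ z (u n)| = |(ρ x (u n) - ρ y (u n)) + (ρ y (u n) - ρ z (u n))| := by
          congr 1; ring
      _ ≤ _ := abs_add_le _ _
  · unfold tameOf
    refine continuous_tsum (u := fun n : ℕ => (1 / 2 : ℝ) ^ (n + 1) * C) (fun n => ?_)
      (summable_half.mul_right _) fun n q => ?_
    · refine continuous_const.mul (Continuous.abs ?_)
      have h1 : Continuous fun q : X × X => ρ q.1 (u n) :=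
        hρ.cont.comp (continuous_fst.prodMk continuous_const)
      have h2 : Continuous fun q : X × X => ρ q.2 (u n) :=
        hρ.cont.comp (continuous_snd.prodMk continuous_const)
      exact h1.sub h2
    · rw [Real.norm_of_nonneg (by positivity)]
      exact (tame_term_le hρ u q.1 q.2 n).trans
        (mul_le_mul_of_nonneg_left (hC _ _) (by positivity))

theorem eq_zero_of_tame_eq_zero (hu : DenseRange u) (x y : X) (h : tameOf ρ u x y = 0) :
    ρ x y = 0 := by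
  have h1 : ∀ n, ρ x (u n) = ρ y (u n) := by
    intro n
    have h2 := (hasSum_zero_iff_of_nonneg (fun n => by positivity)).1
      ((tame_summable hρ u x y).hasSum_iff.2 h)
    have h3 := congrFun h2 n
    simp only [Pi.zero_apply, mul_eq_zero, abs_eq_zero] at h3
    rcases h3 with h3 | h3
    · exact absurd h3 (by positivity)
    · linarith
  have h4 : (fun z => ρ x z) = fun z => ρ y z := by
    refine hu.equalizer ?_ ?_ ?_
    · exact hρ.cont.comp (continuous_const.prodMk continuous_id)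
    · exact hρ.cont.comp (continuous_const.prodMk continuous_id)
    · funext n; exact h1 n
  have h5 : ρ x y = ρ y y := congrFun h4 y
  rw [h5, hρ.self]

/-- The number of labels at the scale `ε`. -/
noncomputable def labelNum (C ε : ℝ) : ℕ :=
  (⌊4 * C / ε⌋₊ + 1) ^ ⌈Real.logb 2 (2 * C / ε)⌉₊

omit hρ in
theorem one_le_labelNum (C ε : ℝ) : 1 ≤ labelNum C ε := Nat.one_le_pow _ _ (Nat.succ_pos _)

theorem exists_label {C : ℝ} (hC1 : 1 ≤ C) (hC : ∀ x y, ρ x y ≤ C) {ε : ℝ} (hε : 0 < ε) :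
    ∃ c : X → Fin (labelNum C ε), ∀ x y, c x = c y → tameOf ρ u x y < ε := by
  set m := ⌊4 * C / ε⌋₊ with hm
  set n := ⌈Real.logb 2 (2 * C / ε)⌉₊ with hn
  have hlab : ∀ x k, ⌊ρ x (u k) * (4 / ε)⌋₊ < m + 1 := by
    intro x k
    apply Nat.lt_succ_of_le
    apply Nat.floor_le_floor
    rw [mul_div_assoc', mul_comm]
    exact div_le_div_of_nonneg_right (mul_le_mul_of_nonneg_left (hC _ _) (by norm_num)) hε.le
  let c0 : X → (Fin n → Fin (m + 1)) := fun x k => ⟨⌊ρ x (u k) * (4 / ε)⌋₊, hlab x k⟩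
  refine ⟨fun x => finFunctionFinEquiv (c0 x), fun x y hxy => ?_⟩
  have h1 : c0 x = c0 y := finFunctionFinEquiv.injective hxy
  have h2 : ∀ k, k < n → |ρ x (u k) - ρ y (u k)| ≤ ε / 4 := by
    intro k hk
    have h3 : ⌊ρ x (u k) * (4 / ε)⌋₊ = ⌊ρ y (u k) * (4 / ε)⌋₊ := by
      have := congrFun h1 ⟨k, hk⟩
      simpa [c0] using this
    have hx0 : 0 ≤ ρ x (u k) * (4 / ε) := mul_nonneg (hρ.nonneg _ _) (by positivity)
    have hy0 : 0 ≤ ρ y (u k) * (4 / ε) := mul_nonneg (hρ.nonneg _ _) (by positivity)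
    have a1 := Nat.floor_le hx0
    have a2 := Nat.lt_floor_add_one (ρ x (u k) * (4 / ε))
    have b1 := Nat.floor_le hy0
    have b2 := Nat.lt_floor_add_one (ρ y (u k) * (4 / ε))
    rw [h3] at a1 a2
    have h4 : |ρ x (u k) - ρ y (u k)| * (4 / ε) ≤ 1 := by
      rw [← abs_of_pos (show 0 < 4 / ε by positivity), ← abs_mul, abs_le]
      constructor <;> nlinarith
    rw [← mul_div_assoc, div_le_one hε] at h4
    linarith
  have h2n : 2 * C / ε ≤ (2 : ℝ) ^ n := by
    have h5 : 0 < 2 * C / ε := by positivity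
    calc 2 * C / ε = (2 : ℝ) ^ (Real.logb 2 (2 * C / ε)) := by
          rw [Real.rpow_logb (by norm_num) (by norm_num) h5]
      _ ≤ (2 : ℝ) ^ (n : ℝ) := Real.rpow_le_rpow_of_exponent_le (by norm_num) (Nat.le_ceil _)
      _ = (2 : ℝ) ^ n := Real.rpow_natCast _ _
  have hsum := (tame_summable hρ u x y).sum_add_tsum_nat_add n
  have hfirst : ∑ i ∈ Finset.range n, (1 / 2 : ℝ) ^ (i + 1) * |ρ x (u i) - ρ y (u i)| ≤ ε / 4 := by
    calc ∑ i ∈ Finset.range n, (1 / 2 : ℝ) ^ (i + 1) * |ρ x (u i) - ρ y (u i)|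
        ≤ ∑ i ∈ Finset.range n, (1 / 2 : ℝ) ^ (i + 1) * (ε / 4) := by
          apply Finset.sum_le_sum
          intro i hi
          exact mul_le_mul_of_nonneg_left (h2 i (Finset.mem_range.1 hi)) (by positivity)
      _ = (∑ i ∈ Finset.range n, (1 / 2 : ℝ) ^ (i + 1)) * (ε / 4) := by rw [Finset.sum_mul]
      _ ≤ 1 * (ε / 4) := by
          apply mul_le_mul_of_nonneg_right _ (by positivity)
          have := summable_half.sum_le_tsum (Finset.range n) fun i _ => by positivity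
          rwa [tsum_half] at this
      _ = ε / 4 := one_mul _
  have htail : ∑' i : ℕ, (1 / 2 : ℝ) ^ (i + n + 1) * |ρ x (u (i + n)) - ρ y (u (i + n))| ≤ ε / 2 := by
    have hs : Summable fun i : ℕ => (1 / 2 : ℝ) ^ (i + 1) * ((1 / 2) ^ n * C) :=
      summable_half.mul_right _
    calc ∑' i : ℕ, (1 / 2 : ℝ) ^ (i + n + 1) * |ρ x (u (i + n)) - ρ y (u (i + n))|
        ≤ ∑' i : ℕ, (1 / 2 : ℝ) ^ (i + 1) * ((1 / 2) ^ n * C) := by
          refine Summable.tsum_le_tsum (fun i => ?_)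
            ((summable_nat_add_iff n).2 (tame_summable hρ u x y)) hs
          have e1 : (1 / 2 : ℝ) ^ (i + 1) * ((1 / 2) ^ n * C) = (1 / 2 : ℝ) ^ (i + n + 1) * C := by
            rw [show i + n + 1 = (i + 1) + n by ring, pow_add]; ring
          rw [e1]
          exact mul_le_mul_of_nonneg_left ((abs_sub_le hρ _ _ _).trans (hC _ _)) (by positivity)
      _ = (1 / 2) ^ n * C := by rw [tsum_mul_right, tsum_half, one_mul]
      _ ≤ ε / 2 := by
          rw [div_le_iff₀ hε] at h2n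
          rw [one_div, inv_pow, inv_mul_le_iff₀ (by positivity)]
          linarith
  have : tameOf ρ u x y ≤ ε / 4 + ε / 2 := by
    unfold tameOf
    rw [← hsum]
    exact add_le_add hfirst htail
  linarith

omit hρ [TopologicalSpace X] in
theorem tendsto_labelNum {C : ℝ} (hC1 : 1 ≤ C) {τ : ℝ} (hτ : 0 < τ) :
    Tendsto (fun ε : ℝ => ε ^ τ * Real.log (labelNum C ε)) (𝓝[>] 0) (𝓝 0) := by
  set s := τ / 4 with hs
  have hs0 : 0 < s := by positivity
  set A := (1 / (s * Real.log 2) + 1) / s * (8 * C) ^ (2 * s) with hA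
  have hlog2 : 0 < Real.log 2 := Real.log_pos (by norm_num)
  have hup : ∀ᶠ ε : ℝ in 𝓝[>] 0, ε ^ τ * Real.log (labelNum C ε) ≤ A * ε ^ (2 * s) := by
    have hev : ∀ᶠ ε : ℝ in 𝓝[>] 0, ε < 1 :=
      eventually_nhdsWithin_of_eventually_nhds (eventually_lt_nhds one_pos)
    filter_upwards [hev, self_mem_nhdsWithin] with ε h1 h0
    have h0' : 0 < ε := h0
    set y := 8 * C / ε with hy
    have hy0 : 0 < y := by positivity
    have hy8 : 8 ≤ y := by
      rw [hy, le_div_iff₀ h0']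
      nlinarith
    have hy1 : 1 ≤ y := by linarith
    have hlogy : Real.log y ≤ y ^ s / s := Real.log_le_rpow_div hy0.le hs0
    have hys : 1 ≤ y ^ s := Real.one_le_rpow hy1 hs0.le
    have hn : ((⌈Real.logb 2 (2 * C / ε)⌉₊ : ℕ) : ℝ) ≤ y ^ s * (1 / (s * Real.log 2) + 1) := by
      have h2C : 1 ≤ 2 * C / ε := by
        rw [le_div_iff₀ h0']; nlinarith
      have h3 : 0 ≤ Real.logb 2 (2 * C / ε) := Real.logb_nonneg (by norm_num) h2C
      have h4 := (Nat.ceil_lt_add_one h3).le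
      have h5 : Real.logb 2 (2 * C / ε) ≤ (y ^ s / s) / Real.log 2 := by
        rw [Real.logb]
        apply div_le_div_of_nonneg_right _ hlog2.le
        refine le_trans (Real.log_le_log (by positivity) ?_) hlogy
        rw [hy]
        exact div_le_div_of_nonneg_right (by nlinarith) h0'.le
      calc ((⌈Real.logb 2 (2 * C / ε)⌉₊ : ℕ) : ℝ) ≤ (y ^ s / s) / Real.log 2 + 1 := by linarith
        _ ≤ (y ^ s / s) / Real.log 2 + y ^ s := by linarith
        _ = y ^ s * (1 / (s * Real.log 2) + 1) := by field_simp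
    have hm : Real.log ((⌊4 * C / ε⌋₊ + 1 : ℕ) : ℝ) ≤ y ^ s / s := by
      refine le_trans (Real.log_le_log (by positivity) ?_) hlogy
      push_cast
      have h6 : (⌊4 * C / ε⌋₊ : ℝ) ≤ 4 * C / ε := Nat.floor_le (by positivity)
      have h7 : (1 : ℝ) ≤ 4 * C / ε := by
        rw [le_div_iff₀ h0']; nlinarith
      have h8 : y = 4 * C / ε + 4 * C / ε := by rw [hy]; ring
      linarith
    have hlogK : Real.log (labelNum C ε) ≤ (y ^ s * (1 / (s * Real.log 2) + 1)) * (y ^ s / s) := by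
      unfold labelNum
      rw [Nat.cast_pow, Real.log_pow]
      apply mul_le_mul hn hm
      · apply Real.log_nonneg
        exact_mod_cast Nat.le_add_left 1 _
      · positivity
    have hε2 : ε ^ τ = ε ^ (2 * s) * ε ^ (2 * s) := by
      rw [← Real.rpow_add h0']; congr 1; rw [hs]; ring
    have hy2 : y ^ s * y ^ s = (8 * C) ^ (2 * s) / ε ^ (2 * s) := by
      rw [← Real.rpow_add hy0, hy, Real.div_rpow (by positivity) h0'.le]
      congr 2 <;> ring
    have hεp : 0 < ε ^ (2 * s) := Real.rpow_pos_of_pos h0' _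
    calc ε ^ τ * Real.log (labelNum C ε)
        ≤ ε ^ τ * ((y ^ s * (1 / (s * Real.log 2) + 1)) * (y ^ s / s)) :=
          mul_le_mul_of_nonneg_left hlogK (Real.rpow_nonneg h0'.le _)
      _ = (ε ^ (2 * s) * ε ^ (2 * s)) * ((1 / (s * Real.log 2) + 1) / s) * (y ^ s * y ^ s) := by
          rw [hε2]; ring
      _ = A * ε ^ (2 * s) := by
          rw [hy2, hA]; field_simp
  have hlow : ∀ᶠ ε : ℝ in 𝓝[>] 0, 0 ≤ ε ^ τ * Real.log (labelNum C ε) := by
    filter_upwards [self_mem_nhdsWithin] with ε h0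
    apply mul_nonneg (Real.rpow_nonneg (le_of_lt h0) _)
    apply Real.log_nonneg
    exact_mod_cast one_le_labelNum C ε
  have hlim : Tendsto (fun ε : ℝ => A * ε ^ (2 * s)) (𝓝[>] 0) (𝓝 0) := by
    have h1 : Tendsto (fun ε : ℝ => ε ^ (2 * s)) (𝓝 0) (𝓝 ((0 : ℝ) ^ (2 * s))) :=
      (Real.continuousAt_rpow_const _ _ (Or.inr (by positivity))).tendsto
    rw [Real.zero_rpow (by positivity)] at h1
    have h2 : Tendsto (fun ε : ℝ => ε ^ (2 * s)) (𝓝[>] 0) (𝓝 0) := h1.mono_left nhdsWithin_le_nhds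
    simpa using h2.const_mul A
  exact tendsto_of_tendsto_of_tendsto_of_le_of_le' tendsto_const_nhds hlim hlow hup

theorem tame_isTame [CompactSpace X] : IsTame (tameOf ρ u) := by
  obtain ⟨C, hC1, hC⟩ := hρ.exists_bound
  exact ⟨labelNum C, one_le_labelNum C, fun ε hε => exists_label hρ u hC1 hC hε,
    fun τ hτ => tendsto_labelNum hC1 hτ⟩

end Tame


/-! ### Counting -/

section Count

/-- The number of maps `Fin d → Option (Fin K)` with at most `κ d` values which are not `none`. -/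
theorem card_sparse_le {d K : ℕ} (hK : 1 ≤ K) {κ : ℝ} (h0 : 0 < κ) (h1 : κ ≤ 1) :
    ((Finset.univ.filter fun f : Fin d → Option (Fin K) =>
      ((Finset.univ.filter fun j => f j ≠ none).card : ℝ) ≤ κ * d).card : ℝ) ≤
      Real.exp (d * (κ * (Real.log K + Real.log (1 / κ) + 1))) := by
  have hK' : (1 : ℝ) ≤ K := by exact_mod_cast hK
  have hK0 : (0 : ℝ) < K := by linarith
  set t : ℝ := κ / K with ht
  have ht0 : 0 < t := by positivity
  have ht1 : t ≤ 1 := by
    rw [ht, div_le_one hK0]; linarith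
  let w : Option (Fin K) → ℝ := fun o => if o = none then 1 else t
  have hw0 : ∀ o, 0 < w o := by
    intro o; simp only [w]; split_ifs <;> [norm_num; exact ht0]
  have hsum : ∑ o, w o = 1 + K * t := by
    rw [Fintype.sum_option]
    simp [w]
  have hall : ∑ f : Fin d → Option (Fin K), ∏ j, w (f j) = (1 + K * t) ^ d := by
    have h := Finset.prod_univ_sum (fun _ : Fin d => (Finset.univ : Finset (Option (Fin K))))
      (fun _ o => w o)
    rw [Fintype.piFinset_univ] at h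
    rw [← h, hsum]
    simp
  have hprod : ∀ f : Fin d → Option (Fin K),
      ∏ j, w (f j) = t ^ (Finset.univ.filter fun j => f j ≠ none).card := by
    intro f
    simp only [w]
    rw [Finset.prod_ite]
    simp
  set T := Finset.univ.filter fun f : Fin d → Option (Fin K) =>
      ((Finset.univ.filter fun j => f j ≠ none).card : ℝ) ≤ κ * d with hT
  have hlow : (T.card : ℝ) * t ^ (κ * d) ≤ (1 + K * t) ^ d := by
    rw [← hall]
    calc (T.card : ℝ) * t ^ (κ * d) = ∑ _f ∈ T, t ^ (κ * d) := by simp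
      _ ≤ ∑ f ∈ T, ∏ j, w (f j) := by
          apply Finset.sum_le_sum
          intro f hf
          rw [hprod, ← Real.rpow_natCast]
          apply Real.rpow_le_rpow_of_exponent_ge ht0 ht1
          exact (Finset.mem_filter.1 hf).2
      _ ≤ ∑ f : Fin d → Option (Fin K), ∏ j, w (f j) := by
          apply Finset.sum_le_sum_of_subset_of_nonneg (Finset.subset_univ _)
          intro f _ _
          exact Finset.prod_nonneg fun j _ => (hw0 _).le
  have hKt : K * t = κ := by rw [ht]; field_simp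
  rw [hKt] at hlow
  have h2 : (1 + κ) ^ d ≤ Real.exp (κ * d) := by
    calc (1 + κ) ^ d ≤ (Real.exp κ) ^ d := by
          apply pow_le_pow_left₀ (by positivity)
          linarith [Real.add_one_le_exp κ]
      _ = Real.exp (κ * d) := by rw [← Real.exp_nat_mul]; congr 1; ring
  have h3 : t ^ (κ * d) = Real.exp (-(κ * d * (Real.log K + Real.log (1 / κ)))) := by
    rw [Real.rpow_def_of_pos ht0]
    congr 1
    rw [ht, Real.log_div h0.ne' hK0.ne', one_div, Real.log_inv]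
    ring
  rw [h3] at hlow
  have h4 : (T.card : ℝ) ≤ Real.exp (κ * d) * Real.exp (κ * d * (Real.log K + Real.log (1 / κ))) := by
    have h5 := hlow.trans h2
    rw [Real.exp_neg] at h5
    rwa [mul_inv_le_iff₀ (Real.exp_pos _)] at h5
  rw [← Real.exp_add] at h4
  refine h4.trans (le_of_eq ?_)
  congr 1
  ring

end Count

section Compare

variable {X : Type v} [TopologicalSpace X] {ρ : X → X → ℝ}

theorem lpDist_symm (hρ : IsContinuousPseudometric ρ) (p : ℝ≥0∞) {d : ℕ} (φ ψ : Fin d → X) :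
    lpDist p ρ φ ψ = lpDist p ρ ψ φ := by
  unfold lpDist
  simp_rw [fun j => hρ.symm (φ j) (ψ j)]

theorem lpDist_self (hρ : IsContinuousPseudometric ρ) {p : ℝ≥0∞} (hp : 1 ≤ p) (hp' : p ≠ ⊤)
    {d : ℕ} (φ : Fin d → X) : lpDist p ρ φ φ = 0 := by
  have hq : 1 ≤ p.toReal := by
    have := ENNReal.toReal_mono hp' hp
    simpa using this
  rw [lpDist_of_ne_top hp']
  simp_rw [hρ.self]
  rw [Real.zero_rpow (by linarith)]
  simp [Real.zero_rpow (inv_ne_zero (show p.toReal ≠ 0 by linarith))]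

omit [TopologicalSpace X] in
theorem lpDist_top_lt {ε : ℝ} (hε : 0 < ε) {d : ℕ} {φ ψ : Fin d → X}
    (h : ∀ j, ρ (φ j) (ψ j) < ε) : lpDist ⊤ ρ φ ψ < ε := by
  rw [lpDist_top]
  rcases isEmpty_or_nonempty (Fin d) with he | he
  · simpa using hε
  · obtain ⟨j, hj⟩ := exists_eq_ciSup_of_finite (f := fun j => ρ (φ j) (ψ j))
    rw [← hj]
    exact h j

/-- Markov's inequality. -/
theorem card_far_le (hρ : IsContinuousPseudometric ρ) {p : ℝ≥0∞} (hp : 1 ≤ p) (hp' : p ≠ ⊤)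
    {ε ε' κ : ℝ} (hε : 0 < ε) (hε' : 0 < ε') (hκ : (2 * ε' / ε) ^ p.toReal ≤ κ)
    {d : ℕ} {φ ψ : Fin d → X} (h : lpDist p ρ φ ψ < ε') :
    ((Finset.univ.filter fun j => ε / 2 ≤ ρ (φ j) (ψ j)).card : ℝ) ≤ κ * d := by
  have hq : 1 ≤ p.toReal := by
    have := ENNReal.toReal_mono hp' hp
    simpa using this
  have hq0 : 0 < p.toReal := by linarith
  set q := p.toReal with hqdef
  rcases Nat.eq_zero_or_pos d with hd | hd
  · subst hd; simp
  have hd' : (0 : ℝ) < d := by exact_mod_cast hd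
  rw [lpDist_of_ne_top hp'] at h
  have hS : 0 ≤ (∑ j, ρ (φ j) (ψ j) ^ q) / d :=
    div_nonneg (Finset.sum_nonneg fun j _ => Real.rpow_nonneg (hρ.nonneg _ _) _) hd'.le
  have h1 : (∑ j, ρ (φ j) (ψ j) ^ q) / d ≤ ε' ^ q := by
    have h2 := Real.rpow_le_rpow (Real.rpow_nonneg hS _) h.le hq0.le
    rwa [← hqdef, ← Real.rpow_mul hS, one_div_mul_cancel hq0.ne', Real.rpow_one] at h2
  rw [div_le_iff₀ hd'] at h1
  have h3 : ((Finset.univ.filter fun j => ε / 2 ≤ ρ (φ j) (ψ j)).card : ℝ) * (ε / 2) ^ q ≤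
      ∑ j, ρ (φ j) (ψ j) ^ q := by
    calc ((Finset.univ.filter fun j => ε / 2 ≤ ρ (φ j) (ψ j)).card : ℝ) * (ε / 2) ^ q
        = ∑ _j ∈ Finset.univ.filter (fun j => ε / 2 ≤ ρ (φ j) (ψ j)), (ε / 2) ^ q := by simp
      _ ≤ ∑ j ∈ Finset.univ.filter (fun j => ε / 2 ≤ ρ (φ j) (ψ j)), ρ (φ j) (ψ j) ^ q := by
          apply Finset.sum_le_sum
          intro j hj
          exact Real.rpow_le_rpow (by positivity) (Finset.mem_filter.1 hj).2 hq0.le
      _ ≤ ∑ j, ρ (φ j) (ψ j) ^ q := by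
          apply Finset.sum_le_sum_of_subset_of_nonneg (Finset.subset_univ _)
          intro j _ _
          exact Real.rpow_nonneg (hρ.nonneg _ _) _
  have h4 : (2 * ε' / ε) ^ q = ε' ^ q / (ε / 2) ^ q := by
    rw [← Real.div_rpow hε'.le (by positivity)]
    congr 1
    field_simp
  have hpos : 0 < (ε / 2) ^ q := Real.rpow_pos_of_pos (by positivity) _
  calc ((Finset.univ.filter fun j => ε / 2 ≤ ρ (φ j) (ψ j)).card : ℝ)
      ≤ (ε' ^ q * d) / (ε / 2) ^ q := by
        rw [le_div_iff₀ hpos]; exact h3.trans h1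
    _ = (2 * ε' / ε) ^ q * d := by rw [h4]; ring
    _ ≤ κ * d := mul_le_mul_of_nonneg_right hκ hd'.le

theorem exists_maximal {Y : Type v} {ε : ℝ} (hε : 0 < ε) {S : Set Y} {θ : Y → Y → ℝ}
    (h0 : ∀ a, θ a a = 0) (hs : ∀ a b, θ a b = θ b a) (hfin : sepNum ε S θ ≠ ⊤) :
    ∃ A : Set Y, A ⊆ S ∧ A.encard = sepNum ε S θ ∧ ∀ y ∈ S, ∃ a ∈ A, θ y a < ε := by
  have hne : Nonempty {A : Set Y // A ⊆ S ∧ A.Pairwise fun a b => ε ≤ θ a b} :=
    ⟨⟨∅, Set.empty_subset _, Set.pairwise_empty _⟩⟩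
  obtain ⟨A, hA⟩ := ENat.exists_eq_iSup_of_lt_top (lt_top_iff_ne_top.2 hfin)
  have hA' : (A : Set Y).encard = sepNum ε S θ := hA
  refine ⟨A, A.2.1, hA', fun y hy => ?_⟩
  by_contra hcon
  push Not at hcon
  have hyA : y ∉ (A : Set Y) := fun h => by
    have := hcon y h
    rw [h0] at this
    linarith
  have hle : (insert y (A : Set Y)).encard ≤ sepNum ε S θ := by
    unfold sepNum
    refine le_iSup_of_le ⟨insert y (A : Set Y), Set.insert_subset hy A.2.1, ?_⟩ le_rfl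
    refine (Set.pairwise_insert).2 ⟨A.2.2, fun b hb _ => ⟨hcon b hb, ?_⟩⟩
    rw [hs]
    exact hcon b hb
  rw [Set.encard_insert_of_notMem hyA, hA'] at hle
  have h1 := (ENat.add_one_le_iff hfin).1 hle
  exact lt_irrefl _ h1

theorem sepNum_compare (hρ : IsContinuousPseudometric ρ) {K : ℕ} (hK : 1 ≤ K) {p : ℝ≥0∞}
    (hp : 1 ≤ p) (hp' : p ≠ ⊤) {ε ε' κ : ℝ} (hε : 0 < ε) (hε' : 0 < ε')
    (hκ : (2 * ε' / ε) ^ p.toReal ≤ κ) (hκ0 : 0 < κ) (hκ1 : κ ≤ 1)
    (c : X → Fin K) (hc : ∀ x y, c x = c y → ρ x y < ε) {d : ℕ} (S : Set (Fin d → X)) :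
    ((sepNum ε S (lpDist ⊤ ρ) : ℕ∞) : ℝ≥0∞) ≤ ((sepNum ε' S (lpDist p ρ) : ℕ∞) : ℝ≥0∞) *
      ENNReal.ofReal (Real.exp (d * (κ * (Real.log K + Real.log (1 / κ) + 1)))) := by
  classical
  by_cases hfin : sepNum ε' S (lpDist p ρ) = ⊤
  · rw [hfin, ENat.toENNReal_top, ENNReal.top_mul]
    · exact le_top
    · simp [Real.exp_pos]
  obtain ⟨A, hAS, hAcard, hA⟩ := exists_maximal hε' (lpDist_self hρ hp hp')
    (lpDist_symm hρ p) hfin
  set T := Finset.univ.filter fun f : Fin d → Option (Fin K) =>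
      ((Finset.univ.filter fun j => f j ≠ none).card : ℝ) ≤ κ * d with hT
  have hTcard := card_sparse_le (d := d) hK hκ0 hκ1
  rw [← hT] at hTcard
  have hmain : sepNum ε S (lpDist ⊤ ρ) ≤ sepNum ε' S (lpDist p ρ) * (T.card : ℕ∞) := by
    unfold sepNum
    refine iSup_le fun B => ?_
    rw [show (⨆ A : {A : Set (Fin d → X) // A ⊆ S ∧ A.Pairwise fun a b => ε' ≤ lpDist p ρ a b},
      (A : Set (Fin d → X)).encard) = sepNum ε' S (lpDist p ρ) from rfl, ← hAcard,
      ← Set.encard_coe_eq_coe_finsetCard, ← Set.encard_prod]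
    choose! a ha ha' using hA
    let lab : (Fin d → X) → (Fin d → Option (Fin K)) := fun ψ j =>
      if ε / 2 ≤ ρ (ψ j) (a ψ j) then some (c (ψ j)) else none
    refine Set.encard_le_encard_of_injOn (f := fun ψ => (a ψ, lab ψ)) ?_ ?_
    · intro ψ hψ
      have hψS := B.2.1 hψ
      refine ⟨ha ψ hψS, ?_⟩
      simp only [hT, Finset.coe_filter, Finset.mem_univ, true_and, Set.mem_ofPred_eq]
      have h1 := card_far_le hρ hp hp' hε hε' hκ (ha' ψ hψS)
      refine le_trans (le_of_eq ?_) h1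
      congr 2
      ext j
      simp [lab]
    · intro ψ hψ ψ' hψ' heq
      simp only [Prod.mk.injEq] at heq
      by_contra hne
      have h1 := B.2.2 hψ hψ' hne
      have h2 : lpDist ⊤ ρ ψ ψ' < ε := by
        apply lpDist_top_lt hε
        intro j
        have h3 := congrFun heq.2 j
        simp only [lab] at h3
        by_cases hj : ε / 2 ≤ ρ (ψ j) (a ψ j)
        · rw [if_pos hj] at h3
          by_cases hj' : ε / 2 ≤ ρ (ψ' j) (a ψ' j)
          · rw [if_pos hj'] at h3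
            exact hc _ _ (Option.some.inj h3)
          · rw [if_neg hj'] at h3
            exact absurd h3 (by simp)
        · rw [if_neg hj] at h3
          by_cases hj' : ε / 2 ≤ ρ (ψ' j) (a ψ' j)
          · rw [if_pos hj'] at h3
            exact absurd h3 (by simp)
          · push Not at hj hj'
            rw [heq.1] at hj
            have h4 := hρ.triangle (ψ j) (a ψ' j) (ψ' j)
            rw [hρ.symm (a ψ' j)] at h4
            linarith
      exact absurd h1 (not_le.2 h2)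
  calc ((sepNum ε S (lpDist ⊤ ρ) : ℕ∞) : ℝ≥0∞)
      ≤ ((sepNum ε' S (lpDist p ρ) * (T.card : ℕ∞) : ℕ∞) : ℝ≥0∞) := ENat.toENNReal_mono hmain
    _ = ((sepNum ε' S (lpDist p ρ) : ℕ∞) : ℝ≥0∞) * (T.card : ℝ≥0∞) := by
        rw [ENat.toENNReal_mul, ENat.toENNReal_coe]
    _ ≤ _ := by
        gcongr
        rw [← ENNReal.ofReal_natCast]
        exact ENNReal.ofReal_le_ofReal hTcard

end Compare

/-! ### Comparison of the dimensions for one pseudometric -/

section Final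

variable {Γ : Type u} {X : Type v} [TopologicalSpace X] {ρ : X → X → ℝ}

theorem tendsto_error {K : ℝ → ℕ} {τ : ℝ} (hτ : 0 < τ)
    (hK : Tendsto (fun ε : ℝ => ε ^ τ * Real.log (K ε)) (𝓝[>] 0) (𝓝 0)) :
    Tendsto (fun ε : ℝ => 2 * ε ^ τ * (Real.log (K ε) + Real.log (1 / (2 * ε ^ τ)) + 1))
      (𝓝[>] 0) (𝓝 0) := by
  have h1 : Tendsto (fun ε : ℝ => 2 * ε ^ τ) (𝓝[>] 0) (𝓝 0) := by
    have h2 : Tendsto (fun ε : ℝ => ε ^ τ) (𝓝 0) (𝓝 ((0 : ℝ) ^ τ)) :=
      (Real.continuousAt_rpow_const _ _ (Or.inr hτ.le)).tendsto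
    rw [Real.zero_rpow hτ.ne'] at h2
    have h3 : Tendsto (fun ε : ℝ => ε ^ τ) (𝓝[>] 0) (𝓝 0) := h2.mono_left nhdsWithin_le_nhds
    simpa using h3.const_mul 2
  have h4 : Tendsto (fun ε : ℝ => (2 * ε ^ τ) * Real.log (2 * ε ^ τ)) (𝓝[>] 0) (𝓝 0) := by
    have := (Real.continuous_mul_log.tendsto 0).comp h1
    rw [zero_mul] at this
    exact this
  have h5 := ((hK.const_mul 2).sub h4).add h1
  simp only [mul_zero, sub_zero, add_zero] at h5
  refine h5.congr fun ε => ?_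
  rw [one_div, Real.log_inv]
  ring

theorem mdimOf_top_le [SMul Γ X] (hρ : IsContinuousPseudometric ρ) (hT : IsTame ρ)
    {p : ℝ≥0∞} (hp : 1 ≤ p) (hp' : p ≠ ⊤) {d : ℕ → ℕ} (hd : Tendsto d atTop atTop)
    (σ : ∀ i, Γ → Equiv.Perm (Fin (d i))) :
    mdimOf σ ⊤ ρ ≤ mdimOf σ p ρ := by
  have hq : 1 ≤ p.toReal := by
    have := ENNReal.toReal_mono hp' hp
    simpa using this
  obtain ⟨K, hK1, hKc, hKt⟩ := hT
  refine EReal.le_of_forall_lt_iff_le.1 fun M hM => ?_
  obtain ⟨M₁, hM1, hM2⟩ := EReal.lt_iff_exists_real_btwn.1 hM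
  have hM3 : M₁ < M := by exact_mod_cast hM2
  set τ : ℝ := (M - M₁) / (2 * (|M₁| + 1)) with hτ
  have hτ0 : 0 < τ := by
    apply div_pos (by linarith)
    positivity
  have hτM : τ * M₁ ≤ (M - M₁) / 2 := by
    have h1 : τ * |M₁| ≤ (M - M₁) / 2 := by
      rw [hτ, div_mul_eq_mul_div, div_le_div_iff₀ (by positivity) (by norm_num)]
      nlinarith [abs_nonneg M₁]
    exact (mul_le_mul_of_nonneg_left (le_abs_self M₁) hτ0.le).trans h1
  have hfreq : ∃ᶠ ε' in 𝓝[>] (0 : ℝ), (⨅ F : Finset Γ, ⨅ δ : {δ : ℝ // 0 < δ},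
      limsup (fun i => ENNReal.log ((sepNum ε' (mapSet ρ F δ (σ i)) (lpDist p ρ) : ℕ∞) : ℝ≥0∞) /
      (((d i : ℝ) * Real.log (1 / ε') : ℝ) : EReal)) atTop) < (M₁ : EReal) :=
    frequently_lt_of_liminf_lt (by isBoundedDefault) hM1
  -- the reparametrization `ε' = ε ^ (1 + τ)`
  have hτ1 : 0 < 1 / (1 + τ) := by positivity
  have hg : Tendsto (fun ε' : ℝ => ε' ^ (1 / (1 + τ))) (𝓝[>] 0) (𝓝[>] 0) := by
    apply tendsto_nhdsWithin_iff.2
    constructor
    · have h2 : Tendsto (fun ε : ℝ => ε ^ (1 / (1 + τ))) (𝓝 0) (𝓝 ((0 : ℝ) ^ (1 / (1 + τ)))) :=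
        (Real.continuousAt_rpow_const _ _ (Or.inr hτ1.le)).tendsto
      rw [Real.zero_rpow hτ1.ne'] at h2
      exact h2.mono_left nhdsWithin_le_nhds
    · filter_upwards [self_mem_nhdsWithin] with ε' h
      exact Real.rpow_pos_of_pos h _
  have herr := tendsto_error hτ0 (hKt τ hτ0)
  have hev1 : ∀ᶠ ε : ℝ in 𝓝[>] 0,
      2 * ε ^ τ * (Real.log (K ε) + Real.log (1 / (2 * ε ^ τ)) + 1) < (M - M₁) / 2 :=
    herr.eventually_lt_const (by linarith)
  have hev2 : ∀ᶠ ε : ℝ in 𝓝[>] 0, 2 * ε ^ τ < 1 := by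
    have h2 : Tendsto (fun ε : ℝ => ε ^ τ) (𝓝 0) (𝓝 ((0 : ℝ) ^ τ)) :=
      (Real.continuousAt_rpow_const _ _ (Or.inr hτ0.le)).tendsto
    rw [Real.zero_rpow hτ0.ne'] at h2
    have h3 : Tendsto (fun ε : ℝ => 2 * ε ^ τ) (𝓝[>] 0) (𝓝 (2 * 0)) :=
      (h2.mono_left nhdsWithin_le_nhds).const_mul 2
    exact h3.eventually_lt_const (by norm_num)
  have hev3 : ∀ᶠ ε : ℝ in 𝓝[>] 0, ε < Real.exp (-1) :=
    eventually_nhdsWithin_of_eventually_nhds (eventually_lt_nhds (Real.exp_pos _))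
  have hev := hg.eventually (hev1.and (hev2.and hev3))
  refine liminf_le_of_frequently_le' ?_
  refine hg.frequently ?_
  refine (hfreq.and_eventually (hev.and self_mem_nhdsWithin)).mono ?_
  rintro ε' ⟨hlt, ⟨he1, he2, he3⟩, hε'⟩
  have hε'0 : 0 < ε' := hε'
  set ε := ε' ^ (1 / (1 + τ)) with hε
  have hε0 : 0 < ε := Real.rpow_pos_of_pos hε'0 _
  have hεε' : ε ^ (1 + τ) = ε' := by
    rw [hε, ← Real.rpow_mul hε'0.le, one_div_mul_cancel (by positivity), Real.rpow_one]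
  obtain ⟨F, hF⟩ := iInf_lt_iff.1 hlt
  obtain ⟨δ, hδ⟩ := iInf_lt_iff.1 hF
  refine iInf_le_of_le F (iInf_le_of_le δ ?_)
  refine limsup_le_of_le (by isBoundedDefault) ?_
  have h1 := eventually_lt_of_limsup_lt hδ (by isBoundedDefault)
  filter_upwards [h1, hd.eventually_gt_atTop 0] with i hi hdi
  have hdi' : (0 : ℝ) < d i := by exact_mod_cast hdi
  -- the logarithms
  have hL : 1 < Real.log (1 / ε) := by
    rw [one_div, Real.log_inv]
    have := Real.log_lt_log hε0 he3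
    rw [Real.log_exp] at this
    linarith
  have hL' : Real.log (1 / ε') = (1 + τ) * Real.log (1 / ε) := by
    rw [← hεε', one_div, one_div, Real.log_inv, Real.log_inv, Real.log_rpow hε0]
    ring
  have hb : (0 : ℝ) < d i * Real.log (1 / ε) := by positivity
  have hb' : (0 : ℝ) < d i * Real.log (1 / ε') := by rw [hL']; positivity
  rw [EReal.div_lt_iff (by exact_mod_cast hb') (EReal.coe_ne_top _)] at hi
  rw [EReal.div_le_iff_le_mul (by exact_mod_cast hb) (EReal.coe_ne_top _)]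
  obtain ⟨c, hc⟩ := hKc ε hε0
  have hκ : (2 * ε' / ε) ^ p.toReal ≤ 2 * ε ^ τ := by
    have h2 : 2 * ε' / ε = 2 * ε ^ τ := by
      rw [← hεε', Real.rpow_add hε0, Real.rpow_one]
      field_simp
    rw [h2]
    have h3 : 0 ≤ 2 * ε ^ τ := by positivity
    calc (2 * ε ^ τ) ^ p.toReal ≤ (2 * ε ^ τ) ^ (1 : ℝ) :=
          Real.rpow_le_rpow_of_exponent_ge (by positivity) he2.le hq
      _ = 2 * ε ^ τ := Real.rpow_one _
  have hcomp := sepNum_compare hρ (hK1 ε) hp hp' hε0 hε'0 hκ (by positivity) he2.le c hc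
    (mapSet ρ F δ (σ i))
  set E := 2 * ε ^ τ * (Real.log (K ε) + Real.log (1 / (2 * ε ^ τ)) + 1) with hE
  have hlog := ENNReal.log_monotone hcomp
  rw [ENNReal.log_mul_add, ENNReal.log_ofReal_of_pos (Real.exp_pos _), Real.log_exp] at hlog
  have h5 : ENNReal.log ((sepNum ε (mapSet ρ F δ (σ i)) (lpDist ⊤ ρ) : ℕ∞) : ℝ≥0∞) ≤
      ((M₁ * (d i * Real.log (1 / ε')) + d i * E : ℝ) : EReal) := by
    refine hlog.trans ?_
    rw [EReal.coe_add]
    refine add_le_add ?_ le_rfl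
    refine hi.le.trans (le_of_eq ?_)
    norm_cast
  refine h5.trans ?_
  rw [← EReal.coe_mul]
  apply EReal.coe_le_coe_iff.2
  rw [hL']
  have h6 : E ≤ (M - M₁) / 2 * Real.log (1 / ε) := by nlinarith [he1]
  have h7 : τ * M₁ * Real.log (1 / ε) ≤ (M - M₁) / 2 * Real.log (1 / ε) :=
    mul_le_mul_of_nonneg_right hτM (by linarith)
  have h8 : M₁ * ((1 + τ) * Real.log (1 / ε)) + E ≤ Real.log (1 / ε) * M := by nlinarith
  calc M₁ * (d i * ((1 + τ) * Real.log (1 / ε))) + d i * E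
      = d i * (M₁ * ((1 + τ) * Real.log (1 / ε)) + E) := by ring
    _ ≤ d i * (Real.log (1 / ε) * M) := mul_le_mul_of_nonneg_left h8 hdi'.le
    _ = d i * Real.log (1 / ε) * M := by ring

/-- Uniform comparison of two continuous pseudometrics with the same zeros. -/
theorem exists_modulus [CompactSpace X] {ρ' : X → X → ℝ} (hρ : IsContinuousPseudometric ρ)
    (hρ' : IsContinuousPseudometric ρ') (h0 : ∀ x y, ρ' x y = 0 → ρ x y = 0) {η : ℝ}
    (hη : 0 < η) : ∃ κ : ℝ, 0 < κ ∧ ∀ x y, ρ' x y < κ → ρ x y < η := by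
  set Z : Set (X × X) := {q | η ≤ ρ q.1 q.2} with hZ
  have hZc : IsCompact Z := (isClosed_le continuous_const hρ.cont).isCompact
  rcases Z.eq_empty_or_nonempty with he | hne
  · refine ⟨1, one_pos, fun x y _ => ?_⟩
    by_contra hcon
    have : (x, y) ∈ Z := not_lt.1 hcon
    rw [he] at this
    exact this
  · obtain ⟨q, hq, hmin⟩ := hZc.exists_isMinOn hne hρ'.cont.continuousOn
    refine ⟨ρ' q.1 q.2, ?_, fun x y hxy => ?_⟩
    · refine lt_of_le_of_ne (hρ'.nonneg _ _) fun h => ?_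
      have h1 := h0 _ _ h.symm
      have h2 : η ≤ ρ q.1 q.2 := hq
      linarith
    · by_contra hcon
      have h1 : (x, y) ∈ Z := not_lt.1 hcon
      have h2 := hmin h1
      have h3 : ρ' q.1 q.2 ≤ ρ' x y := h2
      linarith

theorem exists_mapSet_subset [CompactSpace X] [SMul Γ X] {ρ' : X → X → ℝ}
    (hρ : IsContinuousPseudometric ρ)
    (hρ' : IsContinuousPseudometric ρ') (h0 : ∀ x y, ρ' x y = 0 → ρ x y = 0) {δ : ℝ}
    (hδ : 0 < δ) : ∃ δ' : ℝ, 0 < δ' ∧ ∀ (F : Finset Γ) (d : ℕ) (σ : Γ → Equiv.Perm (Fin d)),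
      mapSet ρ' F δ' σ ⊆ mapSet ρ F δ σ := by
  obtain ⟨C, hC1, hC⟩ := hρ.exists_bound
  obtain ⟨κ, hκ0, hκ⟩ := exists_modulus hρ hρ' h0 (show 0 < δ / 2 by positivity)
  have hC0 : 0 < C := by linarith
  refine ⟨κ * δ / (2 * C), by positivity, fun F d σ φ hφ s hs => ?_⟩
  have h1 := hφ s hs
  have h2ne : (2 : ℝ≥0∞) ≠ ⊤ := by norm_num
  rw [lpDist_of_ne_top h2ne] at h1 ⊢
  simp only [ENNReal.toReal_ofNat, Real.rpow_two] at h1 ⊢
  rw [← Real.sqrt_eq_rpow] at h1 ⊢
  set a : Fin d → X := fun j => φ (σ s j) with ha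
  set b : Fin d → X := fun j => s • φ j with hb
  have hpt : ∀ j, ρ (a j) (b j) ^ 2 ≤ (δ / 2) ^ 2 + C ^ 2 / κ ^ 2 * ρ' (a j) (b j) ^ 2 := by
    intro j
    have hn := hρ.nonneg (a j) (b j)
    have hn' := hρ'.nonneg (a j) (b j)
    by_cases hj : ρ' (a j) (b j) < κ
    · have h3 := hκ _ _ hj
      have h4 : 0 ≤ C ^ 2 / κ ^ 2 * ρ' (a j) (b j) ^ 2 := by positivity
      nlinarith
    · push Not at hj
      have h3 := hC (a j) (b j)
      have h4 : C ^ 2 ≤ C ^ 2 / κ ^ 2 * ρ' (a j) (b j) ^ 2 := by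
        rw [div_mul_eq_mul_div, le_div_iff₀ (by positivity)]
        exact mul_le_mul_of_nonneg_left (pow_le_pow_left₀ hκ0.le hj 2) (by positivity)
      nlinarith [sq_nonneg δ]
  rcases Nat.eq_zero_or_pos d with hd | hd
  · subst hd
    simp [hδ.le]
  have hd' : (0 : ℝ) < d := by exact_mod_cast hd
  have h5 : (∑ j, ρ' (a j) (b j) ^ 2) / d ≤ (κ * δ / (2 * C)) ^ 2 := by
    have h6 : 0 ≤ κ * δ / (2 * C) := by positivity
    exact (Real.sqrt_le_left h6).1 h1
  rw [div_le_iff₀ hd'] at h5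
  refine (Real.sqrt_le_left hδ.le).2 ?_
  rw [div_le_iff₀ hd']
  calc ∑ j, ρ (a j) (b j) ^ 2
      ≤ ∑ j : Fin d, ((δ / 2) ^ 2 + C ^ 2 / κ ^ 2 * ρ' (a j) (b j) ^ 2) :=
        Finset.sum_le_sum fun j _ => hpt j
    _ = (δ / 2) ^ 2 * d + C ^ 2 / κ ^ 2 * ∑ j, ρ' (a j) (b j) ^ 2 := by
        rw [Finset.sum_add_distrib, ← Finset.mul_sum]
        simp [mul_comm]
    _ ≤ (δ / 2) ^ 2 * d + C ^ 2 / κ ^ 2 * ((κ * δ / (2 * C)) ^ 2 * d) := by
        gcongr
    _ = (δ ^ 2 / 2) * d := by field_simp; ring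
    _ ≤ δ ^ 2 * d := by
        apply mul_le_mul_of_nonneg_right _ hd'.le
        nlinarith [sq_nonneg δ]

theorem mdimOf_mono [CompactSpace X] [SMul Γ X] {ρ' : X → X → ℝ}
    (hρ : IsContinuousPseudometric ρ)
    (hρ' : IsContinuousPseudometric ρ') (h0 : ∀ x y, ρ' x y = 0 → ρ x y = 0)
    (hle : ∀ x y, ρ' x y ≤ ρ x y) (p : ℝ≥0∞) {d : ℕ → ℕ}
    (σ : ∀ i, Γ → Equiv.Perm (Fin (d i))) :
    mdimOf σ p ρ' ≤ mdimOf σ p ρ := by
  unfold mdimOf
  refine liminf_le_liminf ?_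
  have hev : ∀ᶠ ε : ℝ in 𝓝[>] 0, ε < 1 :=
    eventually_nhdsWithin_of_eventually_nhds (eventually_lt_nhds one_pos)
  filter_upwards [hev, self_mem_nhdsWithin] with ε hε1 hε0
  have hε0' : 0 < ε := hε0
  refine le_iInf fun F => le_iInf fun δ => ?_
  obtain ⟨δ', hδ'0, hδ'⟩ := exists_mapSet_subset (Γ := Γ) hρ hρ' h0 δ.2
  refine iInf_le_of_le F (iInf_le_of_le ⟨δ', hδ'0⟩ ?_)
  refine limsup_le_limsup (Eventually.of_forall fun i => ?_)
  apply EReal.div_le_div_right_of_nonneg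
  · have : (0 : ℝ) ≤ d i * Real.log (1 / ε) := by
      apply mul_nonneg (Nat.cast_nonneg _)
      apply Real.log_nonneg
      rw [one_div]
      exact (one_le_inv₀ hε0').2 hε1.le
    exact_mod_cast this
  · apply ENNReal.log_monotone
    apply ENat.toENNReal_mono
    exact sepNum_mono (hδ' F (d i) (σ i)) fun φ ψ => lpDist_mono hρ'.nonneg hle φ ψ

theorem mdimOf_le_top [SMul Γ X] (hρ : IsContinuousPseudometric ρ) {p : ℝ≥0∞} (hp : 1 ≤ p)
    {d : ℕ → ℕ} (σ : ∀ i, Γ → Equiv.Perm (Fin (d i))) :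
    mdimOf σ p ρ ≤ mdimOf σ ⊤ ρ := by
  unfold mdimOf
  refine liminf_le_liminf ?_
  have hev : ∀ᶠ ε : ℝ in 𝓝[>] 0, ε < 1 :=
    eventually_nhdsWithin_of_eventually_nhds (eventually_lt_nhds one_pos)
  filter_upwards [hev, self_mem_nhdsWithin] with ε hε1 hε0
  have hε0' : 0 < ε := hε0
  refine iInf_mono fun F => iInf_mono fun δ => ?_
  refine limsup_le_limsup (Eventually.of_forall fun i => ?_)
  apply EReal.div_le_div_right_of_nonneg
  · have : (0 : ℝ) ≤ d i * Real.log (1 / ε) := by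
      apply mul_nonneg (Nat.cast_nonneg _)
      apply Real.log_nonneg
      rw [one_div]
      exact (one_le_inv₀ hε0').2 hε1.le
    exact_mod_cast this
  · apply ENNReal.log_monotone
    apply ENat.toENNReal_mono
    exact sepNum_mono subset_rfl fun φ ψ => lpDist_le_top hp hρ.nonneg φ ψ

end Final

/-- **The `p`-metric mean dimension equals the sofic metric mean dimension.** -/
theorem result (Γ : Type u) [Group Γ] [Countable Γ] (d : ℕ → ℕ)
    (σ : ∀ i, Γ → Equiv.Perm (Fin (d i))) (hσ : IsSoficApproximation d σ)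
    (X : Type v) [TopologicalSpace X] [CompactSpace X] [TopologicalSpace.MetrizableSpace X]
    [MulAction Γ X] [ContinuousConstSMul Γ X] (p : ℝ≥0∞) (hp : 1 ≤ p) :
    metricMeanDim X σ p = metricMeanDim X σ ⊤ := by
  apply le_antisymm
  · exact iInf_mono fun ρ => mdimOf_le_top ρ.2.1 hp σ
  · by_cases hp' : p = ⊤
    · rw [hp']
    refine le_iInf fun ρ => ?_
    obtain ⟨ρ, hρ, hgen⟩ := ρ
    rcases isEmpty_or_nonempty X with hX | hX
    · refine iInf_le_of_le ⟨ρ, hρ, hgen⟩ ?_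
      refine mdimOf_top_le hρ ?_ hp hp' hσ.tendsto_card σ
      refine ⟨fun _ => 1, fun _ => le_rfl, fun ε _ => ⟨fun x => isEmptyElim x, fun x => isEmptyElim x⟩,
        fun τ _ => ?_⟩
      simp
    · obtain ⟨u, hu⟩ := TopologicalSpace.exists_dense_seq X
      have h1 := tame_pseudometric hρ u
      have h2 := eq_zero_of_tame_eq_zero hρ u hu
      have hgen' : IsDynamicallyGenerating Γ (tameOf ρ u) := by
        intro x y hxy
        obtain ⟨s, hs⟩ := hgen x y hxy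
        refine ⟨s, lt_of_le_of_ne (h1.nonneg _ _) fun h => ?_⟩
        have := h2 _ _ h.symm
        linarith
      refine iInf_le_of_le ⟨tameOf ρ u, h1, hgen'⟩ ?_
      exact (mdimOf_top_le h1 (tame_isTame hρ u) hp hp' hσ.tendsto_card σ).trans
        (mdimOf_mono hρ h1 h2 (tame_le hρ u) p σ)

end Pool.Agent.Results.MP_9d0111_an.PEqualsInfinity
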